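import Pool.Agent.H500.SV.Stm
import Pool.Agent.H500.R2.Gal

set_option autoImplicit false
set_option linter.unusedSectionVars false

/-!
# Project SV, part 11: the subgroups of the local data are the same for many places
-/

namespace Pool.Agent.H860.SV.Res

open NumberField IsDedekindDomain Filter Topology Polynomial
open Pool.Agent.W401.Cheb (GK IsFrob IsInert dens)
open Pool.Agent.H500.HC (InRay IsRayChar TotPos QBar ZBar em typ jz)
open Pool.Agent.H500.MW (PosUD)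
open Pool.Agent.H500.R2 (UnrOut SpC)
open Pool.Agent.H500.SV

/-! ## Groups -/

/-- `U0 = U' ⊔ ⁅U0, U0⁆` with solvable `G / U'` -/
theorem le_of_comm {G : Type} [Group G] (U0 U' : Subgroup G) [U'.Normal]
    (h : U0 ≤ U' ⊔ ⁅U0, U0⁆) (hs : ∃ r, derivedSeries G r ≤ U') : U0 ≤ U' := by
  have key : ∀ k, U0 ≤ U' ⊔ derivedSeries G k := by
    intro k
    induction k with
    | zero => simp
    | succ k ih =>
      refine h.trans (sup_le le_sup_left ?_)
      refine (Subgroup.commutator_mono ih ih).trans ?_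
      rw [derivedSeries_succ]
      set D := derivedSeries G k
      have h1 : (U' ⊔ D).map (QuotientGroup.mk' U') = D.map (QuotientGroup.mk' U') := by
        rw [Subgroup.map_sup, sup_eq_right.2]
        rw [Subgroup.map_le_iff_le_comap]
        intro u hu
        rw [Subgroup.mem_comap]
        have : (QuotientGroup.mk' U') u = 1 := by
          rw [QuotientGroup.mk'_apply, QuotientGroup.eq_one_iff]
          exact hu
        rw [this]
        exact one_mem _
      have h2 : (⁅U' ⊔ D, U' ⊔ D⁆).map (QuotientGroup.mk' U') ≤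
          (⁅D, D⁆).map (QuotientGroup.mk' U') := by
        rw [Subgroup.map_commutator, Subgroup.map_commutator, h1]
      rw [Subgroup.map_le_iff_le_comap, Subgroup.comap_map_eq, QuotientGroup.ker_mk'] at h2
      rw [sup_comm U' ⁅D, D⁆]
      exact h2
  obtain ⟨r, hr⟩ := hs
  exact (key r).trans (sup_le le_rfl hr)

/-- characters detect the elements outside `H1` -/
theorem exists_chi {G : Type} [Group G] (H1 : Subgroup G) [H1.Normal] [Finite (G ⧸ H1)]
    (hc : commutator G ≤ H1) {s : G} (hs : s ∉ H1) :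
    ∃ θ : G →* ℂˣ, H1 ≤ θ.ker ∧ θ s ≠ 1 := by
  have h1 : IsMulCommutative (G ⧸ H1) := Subgroup.Normal.quotient_commutative_iff_commutator_le.2 hc
  let _ : CommGroup (G ⧸ H1) :=
    { (inferInstance : Group (G ⧸ H1)) with mul_comm := fun a b => mul_comm' a b }
  have h2 : ((s : G) : G ⧸ H1) ≠ 1 := by
    rw [Ne, QuotientGroup.eq_one_iff]
    exact hs
  obtain ⟨φ, hφ⟩ := CommGroup.exists_apply_ne_one_of_hasEnoughRootsOfUnity (G ⧸ H1) ℂ h2
  refine ⟨φ.comp (QuotientGroup.mk' H1), ?_, hφ⟩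
  intro x hx
  rw [MonoidHom.mem_ker, MonoidHom.comp_apply, QuotientGroup.mk'_apply,
    (QuotientGroup.eq_one_iff x).2 hx, map_one]

/-! ## Places -/

section places

variable {K : Type} [Field K] [NumberField K]

/-- every place of `L` lies above a place of `K` -/
theorem exists_below {L : Type} [Field L] [NumberField L] [Algebra K L]
    (w : HeightOneSpectrum (𝓞 L)) : ∃ v : HeightOneSpectrum (𝓞 K), Above w v := by
  have hw := w.isPrime
  exact ⟨⟨w.asIdeal.comap (algebraMap (𝓞 K) (𝓞 L)), Ideal.comap_isPrime _ _,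
    Ideal.IsIntegral.comap_ne_bot (𝓞 K) w.ne_bot⟩, rfl⟩

theorem nat_mem_iff {L : Type} [Field L] [NumberField L] [Algebra K L]
    {w : HeightOneSpectrum (𝓞 L)} {v : HeightOneSpectrum (𝓞 K)} (h : Above w v) (a : ℕ) :
    (a : 𝓞 L) ∈ w.asIdeal ↔ (a : 𝓞 K) ∈ v.asIdeal := by
  rw [← h, Ideal.mem_comap, map_natCast]

theorem spc_of {L E : Type} [Field L] [NumberField L] [Algebra K L] [Field E] [NumberField E]
    {w : HeightOneSpectrum (𝓞 L)} {v : HeightOneSpectrum (𝓞 K)} (h : Above w v) (hv : SpC E v) :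
    SpC E w := by
  intro p w' hp hpw hpw'
  exact hv p w' hp ((nat_mem_iff h p).1 hpw) hpw'

/-- two prime numbers in the same place are equal -/
theorem prime_unique (v : HeightOneSpectrum (𝓞 K)) {p q : ℕ} (hp : p.Prime) (hq : q.Prime)
    (hpv : (p : 𝓞 K) ∈ v.asIdeal) (hqv : (q : 𝓞 K) ∈ v.asIdeal) : p = q := by
  by_contra hne
  have hc : Nat.Coprime p q := (Nat.coprime_primes hp hq).2 hne
  have hc' : IsCoprime (p : ℤ) (q : ℤ) := Nat.isCoprime_iff_coprime.2 hc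
  obtain ⟨a, b, hab⟩ := hc'
  apply v.isPrime.ne_top
  rw [Ideal.eq_top_iff_one]
  have h1 : ((a : 𝓞 K) * (p : 𝓞 K) + (b : 𝓞 K) * (q : 𝓞 K)) = 1 := by
    have := congrArg (Int.cast : ℤ → 𝓞 K) hab
    push_cast at this
    exact this
  rw [← h1]
  exact v.asIdeal.add_mem (v.asIdeal.mul_mem_left _ hpv) (v.asIdeal.mul_mem_left _ hqv)

/-- only finitely many `lam` have the residue characteristic of `v` -/
theorem fin_norm {E : Type} [Field E] [NumberField E] (v : HeightOneSpectrum (𝓞 K)) :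
    {lam : HeightOneSpectrum (𝓞 E) |
      ((Ideal.absNorm lam.asIdeal : ℕ) : 𝓞 K) ∈ v.asIdeal}.Finite := by
  obtain ⟨p, f, hp, hpv, -, -⟩ := Pool.Agent.H500.R2.exists_char v
  have hp0 : (p : 𝓞 E) ≠ 0 := by exact_mod_cast hp.ne_zero
  refine (Pool.Agent.H500.Kum.fin_mem hp0).subset ?_
  intro lam hlam
  obtain ⟨l, g, hl, hlv, -, hn⟩ := Pool.Agent.H500.R2.exists_char lam
  rw [Set.mem_ofPred_eq] at hlam ⊢
  rw [hn, Nat.cast_pow] at hlam
  have h1 := v.isPrime.mem_of_pow_mem _ hlam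
  rw [prime_unique v hp hl hpv h1]
  exact hlv

/-- the subgroup generated by `U` and the inertia groups outside `N` -/
noncomputable def UnrCl (N : ℕ) (U : Subgroup (GK K)) : Subgroup (GK K) :=
  U ⊔ Subgroup.normalClosure {τ : GK K | ∃ v : HeightOneSpectrum (𝓞 K),
    (N : 𝓞 K) ∉ v.asIdeal ∧ IsInert v τ}

theorem le_cl (N : ℕ) (U : Subgroup (GK K)) : U ≤ UnrCl N U := le_sup_left

theorem cl_unr (N : ℕ) (U : Subgroup (GK K)) : UnrOut N (UnrCl N U) := by
  intro v hv σ hσ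
  exact (le_sup_right : _ ≤ UnrCl N U) (Subgroup.subset_normalClosure ⟨v, hv, hσ⟩)

theorem cl_normal (N : ℕ) (U : Subgroup (GK K)) [U.Normal] : (UnrCl N U).Normal := by
  unfold UnrCl
  infer_instance

theorem cl_le {N : ℕ} {U T : Subgroup (GK K)} [T.Normal] (h : U ≤ T) (hT : UnrOut N T) :
    UnrCl N U ≤ T := by
  refine sup_le h (Subgroup.normalClosure_le_normal ?_)
  rintro τ ⟨v, hv, hτ⟩
  exact hT v hv τ hτ

/-- pigeonhole principle for sets of positive upper density -/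
theorem pigeon {A : Type} (F : Finset A) {Λ : HeightOneSpectrum (𝓞 K) → Prop} (hΛ : PosUD Λ)
    (R : A → HeightOneSpectrum (𝓞 K) → Prop) (h : ∀ v, Λ v → ∃ a ∈ F, R a v) :
    ∃ a ∈ F, PosUD (R a) := by
  classical
  by_contra hcon
  push Not at hcon
  obtain ⟨κ, hκ⟩ := hΛ.diff_family F (fun a _ => R a) (fun i hi a b hab v hv => hv)
    (by
      intro a ha ε hε
      refine ⟨0, ?_⟩
      have h1 : Tendsto (dens (R a)) atTop (𝓝 0) := by
        by_contra h2
        exact hcon a ha (Pool.Agent.H500.MW.posUD_of_not h2)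
      exact (h1.eventually (gt_mem_nhds hε)).mono fun N hN => hN.le)
  obtain ⟨v, hv, hv'⟩ := hκ.nonempty
  obtain ⟨a, ha, hav⟩ := h v hv
  exact hv' a ha hav

end places

/-! ## The data at one place -/

section data

variable {K E : Type} [Field K] [NumberField K] [Field E] [NumberField E]

/-- the subgroup `U'` for the data `S`, with closure `U0` -/
structure Dat (j : E →+* QBar) (N n B M : ℕ) (P : HeightOneSpectrum (𝓞 K) → (𝓞 E)[X])
    (U0 : Subgroup (GK K)) (lam : HeightOneSpectrum (𝓞 E)) (S : SD j N n B P lam)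
    (U' : Subgroup (GK K)) : Prop where
  mem : ∀ g, g ∈ U' ↔ S.Z M g
  normal : U'.Normal
  isOpen : IsOpen (U' : Set (GK K))
  ker_le : S.ρ.ker ≤ U'
  index : U'.index ≤ B * M ^ (n ^ 2)
  sol : ∃ r, derivedSeries (GK K) r ≤ U'
  cl : UnrCl N U' = U0

variable {j : E →+* QBar} {N n B M : ℕ} {P : HeightOneSpectrum (𝓞 K) → (𝓞 E)[X]}
  {U0 : Subgroup (GK K)} {lam : HeightOneSpectrum (𝓞 E)} {S : SD j N n B P lam}
  {U' : Subgroup (GK K)}

theorem index_ne_zero (h : IsOpen (U' : Set (GK K))) : U'.index ≠ 0 := by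
  have h1 : Finite (GK K ⧸ U') := Subgroup.quotient_finite_of_isOpen _ h
  exact Subgroup.index_ne_zero_of_finite

theorem Dat.le (D : Dat j N n B M P U0 lam S U') : U' ≤ U0 := D.cl ▸ le_cl N U'

/-- the elements of the inertia groups outside `N * N(lam)` -/
theorem Dat.inert (D : Dat j N n B M P U0 lam S U') {v : HeightOneSpectrum (𝓞 K)}
    (hv : ((N * Ideal.absNorm lam.asIdeal : ℕ) : 𝓞 K) ∉ v.asIdeal) {τ : GK K} (hτ : IsInert v τ) :
    τ ∈ U' := D.ker_le (S.hun v hv τ hτ)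

variable {L : Type} [Field L] [NumberField L] [Algebra K L] {ι : GK L →* GK K}

theorem Dat.pow (D : Dat j N n B M P U0 lam S U') {θ : GK L →* ℂˣ} (hθ : U'.comap ι ≤ θ.ker)
    (s : GK L) : θ s ^ (B * M ^ (n ^ 2)).factorial = 1 := by
  have hn := D.normal
  have h1 : ι s ^ U'.index ∈ U' := Subgroup.pow_index_mem _ _
  have h2 : s ^ U'.index ∈ U'.comap ι := by
    rw [Subgroup.mem_comap, map_pow]
    exact h1
  have h3 : θ s ^ U'.index = 1 := by
    rw [← map_pow]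
    exact hθ h2
  have h4 : U'.index ∣ (B * M ^ (n ^ 2)).factorial :=
    Nat.dvd_factorial (Nat.pos_of_ne_zero (index_ne_zero D.isOpen)) D.index
  obtain ⟨c, hc⟩ := h4
  rw [hc, pow_mul, h3, one_pow]

theorem Dat.open_ker (D : Dat j N n B M P U0 lam S U') (F : Fld U0 L ι) {θ : GK L →* ℂˣ}
    (hθ : U'.comap ι ≤ θ.ker) : IsOpen (θ.ker : Set (GK L)) :=
  Subgroup.isOpen_mono hθ (F.comap_open U' D.isOpen)

theorem Dat.unr (D : Dat j N n B M P U0 lam S U') (F : Fld U0 L ι) {θ : GK L →* ℂˣ}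
    (hθ : U'.comap ι ≤ θ.ker) : UnrOut (N * Ideal.absNorm lam.asIdeal) θ.ker := by
  intro w hw s hs
  obtain ⟨v, hv⟩ := exists_below (K := K) w
  exact hθ (D.inert (fun h => hw ((nat_mem_iff hv _).2 h)) (F.inert v w hv s hs))

/-- the last step: `U' = U0` -/
theorem Dat.top (D : Dat j N n B M P U0 lam S U') (hU0 : U0.Normal) (F : Fld U0 L ι)
    (h : ∀ θ : GK L →* ℂˣ, U'.comap ι ≤ θ.ker → UnrOut N θ.ker) : U0 ≤ U' := by
  have hn := D.normal
  refine le_of_comm U0 U' ?_ D.sol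
  have hn2 : (U' ⊔ ⁅U0, U0⁆).Normal := inferInstance
  have hT : UnrOut N (U' ⊔ ⁅U0, U0⁆) := by
    intro v hv τ hτ
    have hτ0 : τ ∈ U0 := by
      rw [← D.cl]
      exact cl_unr N U' v hv τ hτ
    rw [← F.range] at hτ0
    obtain ⟨s, rfl⟩ := hτ0
    obtain ⟨w, hw, hs⟩ := F.inert' v s hτ
    have hNw : (N : 𝓞 L) ∉ w.asIdeal := fun h' => hv ((nat_mem_iff hw N).1 h')
    set H1 : Subgroup (GK L) := U'.comap ι ⊔ commutator (GK L) with hH1
    have hfin : Finite (GK L ⧸ H1) := Subgroup.quotient_finite_of_isOpen _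
      (Subgroup.isOpen_mono (le_sup_left : U'.comap ι ≤ H1) (F.comap_open U' D.isOpen))
    have hs1 : s ∈ H1 := by
      by_contra hcon
      obtain ⟨θ, hθ, hθs⟩ := exists_chi H1 le_sup_right hcon
      exact hθs (h θ (le_sup_left.trans hθ) w hNw s hs)
    have h2 : H1.map ι ≤ U' ⊔ ⁅U0, U0⁆ := by
      rw [hH1, Subgroup.map_sup]
      refine sup_le_sup (Subgroup.map_comap_le _ _) ?_
      rw [commutator_def, Subgroup.map_commutator, ← MonoidHom.range_eq_map, F.range]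
    exact h2 (Subgroup.mem_map_of_mem ι hs1)
  have h3 := cl_le (le_sup_left : U' ≤ U' ⊔ ⁅U0, U0⁆) hT
  rwa [D.cl] at h3

end data

theorem main : S_UM → S_E1 → S_HM → Pool.Agent.H500.R2.S_Cyc → S_Res := by
  intro hUM hE1 hHM hCyc K E _ _ _ _ j N n B M P α hN hM hBM hP hV hL Λ hΛ hSD
  classical
  set F := (hHM K N (B * M ^ (n ^ 2)) hN).toFinset with hF
  have hdat : ∀ lam, Λ lam → ∃ U0 ∈ F, ∃ S : SD j N n B P lam, ∃ U', Dat j N n B M P U0 lam S U' := by
    intro lam hlam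
    obtain ⟨S⟩ := hSD lam hlam
    obtain ⟨U', h1, h2, h3, h4, h5, h6, -⟩ := hUM K E j N n B P lam S M hM
    refine ⟨UnrCl N U', ?_, S, U', ⟨h1, h2, h3, h4, h5, h6, rfl⟩⟩
    rw [hF, Set.Finite.mem_toFinset]
    have hle := le_cl N U'
    refine ⟨cl_normal N U', Subgroup.isOpen_mono hle h3, ?_, ?_, cl_unr N U'⟩
    · have hd := Subgroup.index_dvd_of_le hle
      exact (Nat.le_of_dvd (Nat.pos_of_ne_zero (index_ne_zero h3)) hd).trans h5
    · obtain ⟨r, hr⟩ := h6
      exact ⟨r, hr.trans hle⟩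
  obtain ⟨U0, hU0F, hPos⟩ := pigeon F hΛ
    (fun U0 lam => ∃ S : SD j N n B P lam, ∃ U', Dat j N n B M P U0 lam S U') hdat
  rw [hF, Set.Finite.mem_toFinset] at hU0F
  obtain ⟨hU0n, hU0o, hU0i, hU0s, hU0u⟩ := hU0F
  refine ⟨U0, hU0n, hU0o, hU0i, hU0s, hU0u, ?_⟩
  obtain ⟨L, _, _, _, ι, Fd, hcard⟩ := hL U0 hU0n hU0o hU0i hU0s hU0u
  set V : Set (HeightOneSpectrum (𝓞 K)) := {v | (N : 𝓞 K) ∉ v.asIdeal ∧ SpC E v ∧ NoRU α v} with hVdef
  set V' : Set (HeightOneSpectrum (𝓞 L)) :=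
    {w | (N : 𝓞 L) ∉ w.asIdeal ∧ SpC E w ∧ ∃ v ∈ V, Above w v} with hV'def
  have hV' : V'.Infinite := by
    intro hfin
    apply hV
    have h1 := hfin.image (fun w => w.asIdeal.comap (algebraMap (𝓞 K) (𝓞 L)))
    have h2 : Set.InjOn (fun v : HeightOneSpectrum (𝓞 K) => v.asIdeal) V :=
      fun a _ b _ hab => HeightOneSpectrum.ext hab
    refine Set.Finite.of_finite_image (h1.subset ?_) h2
    rintro _ ⟨v, hv, rfl⟩
    obtain ⟨σ, hσ⟩ := Pool.Agent.H500.R2.frob_at v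
    have h3 := hE1 K E j N n B M P α hM hBM v hv.1 (hP v hv.1) hv.2.2
    obtain ⟨lam, ⟨S, U', D⟩, hlam⟩ := (hPos.infinite.sdiff h3).nonempty
    have h4 : σ ∈ U' := by
      rw [D.mem]
      by_contra hcon
      exact hlam ⟨S, σ, hσ, hcon⟩
    have h5 : σ ∈ ι.range := by
      rw [Fd.range]
      exact D.le h4
    obtain ⟨s, rfl⟩ := h5
    obtain ⟨w, hw, -, hws⟩ := Fd.frob' v s hσ
    exact ⟨w, ⟨fun h => hv.1 ((nat_mem_iff hw N).1 h), spc_of hw hv.2.1, v, hv, hw⟩, hw⟩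
  have hm : 0 < (B * M ^ (n ^ 2)).factorial := Nat.factorial_pos _
  have hcyc := hCyc L E hcard N _ hN hm V' hV' (fun w hw => ⟨hw.1, hw.2.1⟩)
    (fun lam θ => ∃ S : SD j N n B P lam, ∃ U', Dat j N n B M P U0 lam S U' ∧ U'.comap ι ≤ θ.ker)
    (by
      rintro lam θ ⟨S, U', D, hθ⟩
      exact ⟨D.open_ker Fd hθ, D.pow hθ, D.unr Fd hθ⟩)
    (by
      rintro w ⟨hw1, hw2, v, hv, hwv⟩
      have h3 := hE1 K E j N n B M P α hM hBM v hv.1 (hP v hv.1) hv.2.2
      refine (h3.union (fin_norm (E := E) v)).subset ?_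
      rintro lam ⟨θ, ⟨S, U', D, hθ⟩, s, hs, hθs⟩
      by_contra hcon
      rw [Set.mem_union, not_or] at hcon
      apply hθs
      obtain ⟨f, -, hf⟩ := Fd.frob v w hwv
      obtain ⟨σ, τ, hσ, hτ, hst⟩ := hf s hs
      have h4 : σ ∈ U' := by
        rw [D.mem]
        by_contra hcon'
        exact hcon.1 ⟨S, σ, hσ, hcon'⟩
      have h5 : τ ∈ U' := by
        refine D.inert ?_ hτ
        rw [Nat.cast_mul]
        intro h6
        exact (v.isPrime.mem_or_mem h6).elim hv.1 hcon.2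
      apply hθ
      rw [Subgroup.mem_comap, hst]
      exact U'.mul_mem (U'.pow_mem h4 f) h5)
  refine (hPos.diff hcyc).mono ?_
  rintro lam ⟨⟨S, U', D⟩, hlam⟩
  refine ⟨S, fun g hg => ?_⟩
  have h1 := D.top hU0n Fd (fun θ hθ => by
    by_contra hcon
    exact hlam ⟨θ, ⟨S, U', D, hθ⟩, hcon⟩)
  exact (D.mem g).1 (h1 hg)

end Pool.Agent.H860.SV.Res
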